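import Mathlib

set_option autoImplicit false

namespace Pool.Agent.H.MP_1ae31d_co

open Finset

def phi (d : ℕ) : ℕ → ℕ
  | 0 => 0
  | 1 => 2
  | r + 2 => 2 * Nat.multichoose d (r + 1) + phi d r

lemma phi_rec (d : ℕ) : ∀ r, phi (d + 1) (r + 1) = phi (d + 1) r + phi d (r + 1)
  | 0 => by simp [phi]
  | 1 => by simp [phi]; ring
  | r + 2 => by
    have ih := phi_rec d r
    have h := Nat.multichoose_succ_succ d (r + 1)
    simp only [phi] at ih ⊢
    omega

section Comb

variable {α : Type} [DecidableEq α]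

structure Fam (E : Finset α) (r : ℕ) (B : Finset (Finset α)) : Prop where
  sub : ∀ X ∈ B, X ⊆ E ∧ X.card = r
  aug : ∀ I ⊆ E, I.card + 1 = r → ∀ W ∈ B, ∃ x ∈ W, x ∉ I ∧ insert x I ∈ B

def NC (E : Finset α) (B : Finset (Finset α)) : Prop := ∀ e ∈ E, ∃ X ∈ B, e ∉ X

def con (e : α) (B : Finset (Finset α)) : Finset (Finset α) :=
  (B.filter (e ∈ ·)).image (·.erase e)

def del (e : α) (B : Finset (Finset α)) : Finset (Finset α) := B.filter (e ∉ ·)

lemma mem_con {e : α} {B : Finset (Finset α)} {Y : Finset α} :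
    Y ∈ con e B ↔ e ∉ Y ∧ insert e Y ∈ B := by
  simp only [con, mem_image, mem_filter]
  constructor
  · rintro ⟨X, ⟨h1, h2⟩, rfl⟩
    exact ⟨notMem_erase _ _, by rwa [insert_erase h2]⟩
  · rintro ⟨h1, h2⟩
    exact ⟨_, ⟨h2, mem_insert_self _ _⟩, erase_insert h1⟩

lemma mem_del {e : α} {B : Finset (Finset α)} {Y : Finset α} :
    Y ∈ del e B ↔ Y ∈ B ∧ e ∉ Y := by
  simp [del]

lemma card_split (e : α) (B : Finset (Finset α)) :
    B.card = (con e B).card + (del e B).card := by
  rw [con, card_image_of_injOn, del, card_filter_add_card_filter_not]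
  intro X hX Y hY h
  simp only [coe_filter, Set.mem_ofPred_eq] at hX hY
  rw [← insert_erase hX.2, ← insert_erase hY.2]
  simp only at h
  rw [h]

lemma Fam.con {E : Finset α} {r : ℕ} {B : Finset (Finset α)} (h : Fam E (r + 1) B) (e : α)
    (he : e ∈ E) : Fam (E.erase e) r (con e B) := by
  constructor
  · intro X hX
    obtain ⟨h1, h2⟩ := mem_con.1 hX
    obtain ⟨h3, h4⟩ := h.sub _ h2
    rw [card_insert_of_notMem h1] at h4
    refine ⟨fun x hx => mem_erase.2 ⟨fun hh => h1 (hh ▸ hx), h3 (mem_insert_of_mem hx)⟩, by omega⟩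
  · intro I hI hc W hW
    obtain ⟨h1, h2⟩ := mem_con.1 hW
    have heI : e ∉ I := fun hh => (notMem_erase e E) (hI hh)
    obtain ⟨x, hx, hx2, hx3⟩ := h.aug (insert e I)
      (insert_subset he (hI.trans (erase_subset _ _)))
      (by rw [card_insert_of_notMem heI]; omega) _ h2
    simp only [mem_insert, not_or] at hx hx2
    refine ⟨x, hx.resolve_left hx2.1, hx2.2, mem_con.2 ⟨?_, by rwa [insert_comm]⟩⟩
    simp only [mem_insert, not_or]
    exact ⟨fun hh => hx2.1 hh.symm, heI⟩

lemma Fam.del {E : Finset α} {r : ℕ} {B : Finset (Finset α)} (h : Fam E r B) (e : α) :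
    Fam (E.erase e) r (del e B) := by
  constructor
  · intro X hX
    obtain ⟨h1, h2⟩ := mem_del.1 hX
    obtain ⟨h3, h4⟩ := h.sub _ h1
    exact ⟨fun x hx => mem_erase.2 ⟨fun hh => h2 (hh ▸ hx), h3 hx⟩, h4⟩
  · intro I hI hc W hW
    obtain ⟨h1, h2⟩ := mem_del.1 hW
    have heI : e ∉ I := fun hh => (notMem_erase e E) (hI hh)
    obtain ⟨x, hx, hx2, hx3⟩ := h.aug I (hI.trans (erase_subset _ _)) hc _ h1
    refine ⟨x, hx, hx2, mem_del.2 ⟨hx3, ?_⟩⟩
    simp only [mem_insert, not_or]
    exact ⟨fun hh => h2 (hh ▸ hx), heI⟩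

lemma NC.con {E : Finset α} {r : ℕ} {B : Finset (Finset α)} (h : Fam E (r + 2) B) (hn : NC E B)
    (e : α) (he : e ∈ E) : NC (E.erase e) (con e B) := by
  intro f hf
  obtain ⟨hfe, hfE⟩ := mem_erase.1 hf
  obtain ⟨W, hW, hfW⟩ := hn f hfE
  have key : ∃ X ∈ B, e ∈ X ∧ f ∉ X := by
    by_cases heW : e ∈ W
    · exact ⟨W, hW, heW, hfW⟩
    · obtain ⟨h3, h4⟩ := h.sub _ hW
      obtain ⟨J, hJ, hJc⟩ := exists_subset_card_eq (s := W) (n := r) (by omega)
      have heJ : e ∉ J := fun hh => heW (hJ hh)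
      obtain ⟨x, hx, _, hx3⟩ := h.aug (insert e J) (insert_subset he (hJ.trans h3))
        (by rw [card_insert_of_notMem heJ]; omega) W hW
      refine ⟨_, hx3, by simp, ?_⟩
      simp only [mem_insert, not_or]
      exact ⟨fun hh => hfW (hh ▸ hx), hfe, fun hh => hfW (hJ hh)⟩
  obtain ⟨X, hX, h1, h2⟩ := key
  exact ⟨X.erase e, mem_con.2 ⟨notMem_erase _ _, by rwa [insert_erase h1]⟩,
    fun hh => h2 (mem_of_mem_erase hh)⟩

lemma pair_full {E : Finset α} {r : ℕ} {B : Finset (Finset α)} (h : Fam E (r + 1) B)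
    (e f : α) (hb : ∀ X ∈ B, e ∈ X ∨ f ∈ X) (W : Finset α) (hW : W ∈ B) (hfW : f ∉ W)
    (I : Finset α) (hI : I ⊆ E) (hc : I.card = r) (he : e ∉ I) (hf : f ∉ I) : insert e I ∈ B := by
  obtain ⟨x, hx, _, hx3⟩ := h.aug I hI (by omega) W hW
  rcases hb _ hx3 with h1 | h1
  · rcases mem_insert.1 h1 with rfl | h1
    · exact hx3
    · exact absurd h1 he
  · rcases mem_insert.1 h1 with rfl | h1
    · exact absurd hx hfW
    · exact absurd h1 hf

theorem count_ge : ∀ (n : ℕ) (E : Finset α) (d r : ℕ) (B : Finset (Finset α)), E.card = n →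
    n = d + r → Fam E r B → NC E B → phi d r ≤ B.card := by
  intro n
  induction n using Nat.strong_induction_on with
  | _ n ih =>
  intro E d r B hE hn h hc
  match r, hn, h with
  | 0, _, _ => simp [phi]
  | 1, hn, h =>
    obtain ⟨e, he⟩ : E.Nonempty := card_pos.1 (by omega)
    obtain ⟨X, hX, _⟩ := hc e he
    obtain ⟨h1, h2⟩ := h.sub X hX
    obtain ⟨x, rfl⟩ := card_eq_one.1 h2
    obtain ⟨Y, hY, hxY⟩ := hc x (h1 (mem_singleton_self x))
    have : 1 < B.card := one_lt_card.2 ⟨_, hX, _, hY, fun hh => hxY (hh ▸ mem_singleton_self x)⟩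
    exact this
  | r + 2, hn, h =>
    obtain ⟨e, he⟩ : E.Nonempty := card_pos.1 (by omega)
    have hce : (E.erase e).card = n - 1 := by rw [card_erase_of_mem he, hE]
    by_cases hA : NC (E.erase e) (del e B)
    · obtain ⟨X, hX, heX⟩ := hc e he
      obtain ⟨h1, h2⟩ := h.sub X hX
      have h3 : X.card ≤ (E.erase e).card :=
        card_le_card fun x hx => mem_erase.2 ⟨fun hh => heX (hh ▸ hx), h1 hx⟩
      obtain ⟨d, rfl⟩ : ∃ d', d = d' + 1 := ⟨d - 1, by omega⟩
      have i1 := ih (n - 1) (by omega) _ (d + 1) (r + 1) _ hce (by omega) (h.con e he)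
        (NC.con h hc e he)
      have i2 := ih (n - 1) (by omega) _ d (r + 2) _ hce (by omega) (h.del e) hA
      rw [phi_rec, card_split e B]
      exact add_le_add i1 i2
    · simp only [NC, not_forall, not_exists, not_and, not_not] at hA
      obtain ⟨f, hf, hA⟩ := hA
      obtain ⟨hfe, hfE⟩ := mem_erase.1 hf
      have hb : ∀ X ∈ B, e ∈ X ∨ f ∈ X := by
        intro X hX
        by_cases h1 : e ∈ X
        · exact Or.inl h1
        · exact Or.inr (hA X (mem_del.2 ⟨hX, h1⟩))
      have hcf : ((E.erase e).erase f).card = d + r := by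
        rw [card_erase_of_mem hf, hce]
        omega
      have hU : (powersetCard (r + 1) ((E.erase e).erase f)).card =
          Nat.multichoose d (r + 1) := by
        rw [card_powersetCard, hcf, Nat.multichoose_eq]
        rfl
      have hI : ∀ I ∈ powersetCard (r + 1) ((E.erase e).erase f),
          I ⊆ E ∧ I.card = r + 1 ∧ e ∉ I ∧ f ∉ I := by
        intro I hI
        obtain ⟨h1, h2⟩ := mem_powersetCard.1 hI
        refine ⟨h1.trans ((erase_subset _ _).trans (erase_subset _ _)), h2, fun hh => ?_,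
          fun hh => ?_⟩
        · simpa using h1 hh
        · simpa using h1 hh
      obtain ⟨W1, hW1, hW1f⟩ := hc f hfE
      obtain ⟨W2, hW2, hW2e⟩ := hc e he
      have s1 : powersetCard (r + 1) ((E.erase e).erase f) ⊆ del f (con e B) := by
        intro I hI'
        obtain ⟨a, b, c1, c2⟩ := hI I hI'
        exact mem_del.2 ⟨mem_con.2 ⟨c1, pair_full h e f hb W1 hW1 hW1f I a b c1 c2⟩, c2⟩
      have s2 : powersetCard (r + 1) ((E.erase e).erase f) ⊆ con f (del e B) := by
        intro I hI'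
        obtain ⟨a, b, c1, c2⟩ := hI I hI'
        refine mem_con.2 ⟨c2, mem_del.2
          ⟨pair_full h f e (fun X hX => (hb X hX).symm) W2 hW2 hW2e I a b c2 c1, ?_⟩⟩
        simp only [mem_insert, not_or]
        exact ⟨fun hh => hfe hh.symm, c1⟩
      have c1 := card_le_card s1
      have c2 := card_le_card s2
      have i1 : phi d r ≤ (con f (con e B)).card := by
        match r, h, hcf, hn with
        | 0, _, _, _ => simp [phi]
        | r + 1, h, hcf, hn =>
          exact ih (d + (r + 1)) (by omega) _ d (r + 1) _ hcf rfl ((h.con e he).con f hf)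
            (NC.con (h.con e he) (NC.con h hc e he) f hf)
      have e1 := card_split e B
      have e2 := card_split f (con e B)
      have e3 := card_split f (del e B)
      simp only [phi]
      omega

theorem count_coloop (E : Finset α) (r : ℕ) (B : Finset (Finset α)) (h : Fam E (r + 1) B)
    (hB : B.Nonempty) (e : α) (he : e ∈ E) (hb : ∀ X ∈ B, e ∈ X) :
    B.card = (E.card - 1).choose r := by
  obtain ⟨W, hW⟩ := hB
  have h1 : del e B = ∅ := by
    ext X
    simp only [mem_del, notMem_empty, iff_false, not_and, not_not]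
    exact hb X
  have h2 : con e B = powersetCard r (E.erase e) := by
    ext I
    rw [mem_powersetCard]
    constructor
    · exact (h.con e he).sub I
    · rintro ⟨a, b⟩
      have heI : e ∉ I := fun hh => by simpa using a hh
      obtain ⟨x, _, _, hx3⟩ := h.aug I (a.trans (erase_subset _ _)) (by omega) W hW
      rcases mem_insert.1 (hb _ hx3) with rfl | h3
      · exact mem_con.2 ⟨heI, hx3⟩
      · exact absurd h3 heI
  rw [card_split e B, h1, h2, card_powersetCard, card_erase_of_mem he]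
  simp

end Comb

end Pool.Agent.H.MP_1ae31d_co
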