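import Pool.Agent.H.MP_1ae31d_co.A

set_option autoImplicit false

namespace Pool.Agent.H.MP_1ae31d_co

open Finset

noncomputable def S (d i : ℕ) : ℝ := Nat.multichoose d i

lemma S_nonneg (d i : ℕ) : 0 ≤ S d i := Nat.cast_nonneg _
lemma S_zero (d : ℕ) : S d 0 = 1 := by simp [S]
lemma S_succ (d i : ℕ) : S (d + 1) (i + 1) = S d (i + 1) + S (d + 1) i := by
  simp [S, Nat.multichoose_succ_succ]

lemma S_pos (d : ℕ) : ∀ i, 0 < S (d + 1) i
  | 0 => by simp [S_zero]
  | i + 1 => by
    have := S_pos d i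
    have := S_nonneg d (i + 1)
    rw [S_succ]
    linarith

lemma S_sum (d : ℕ) : ∀ r, ∑ i ∈ range (r + 1), S d i = S (d + 1) r
  | 0 => by simp [S_zero]
  | r + 1 => by rw [sum_range_succ, S_sum d r, S_succ]; ring

lemma S_sum2 (d : ℕ) : ∀ r : ℕ, ∑ i ∈ range (r + 1), S d i * ((r : ℝ) + 1 - i) = S (d + 2) r
  | 0 => by simp [S_zero]
  | r + 1 => by
    have h1 := S_sum2 d r
    have h2 := S_sum d (r + 1)
    have h3 : ∑ i ∈ range (r + 1 + 1), S d i * (((r + 1 : ℕ) : ℝ) + 1 - i) =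
        ∑ i ∈ range (r + 1 + 1), S d i * ((r : ℝ) + 1 - i) + ∑ i ∈ range (r + 1 + 1), S d i := by
      rw [← sum_add_distrib]
      refine sum_congr rfl fun i _ => ?_
      push_cast
      ring
    rw [h3, h2, sum_range_succ, h1, S_succ (d + 1) r]
    push_cast
    ring

noncomputable def g (d : ℕ) : ℕ → ℝ
  | 0 => 0
  | r + 1 => S d r - g d r

lemma g_nonneg (d : ℕ) : ∀ r, 0 ≤ g (d + 1) r
  | 0 => le_rfl
  | 1 => by simp [g, S_zero]
  | r + 2 => by
    have := g_nonneg d r
    have := S_nonneg d (r + 1)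
    simp only [g]
    rw [S_succ]
    linarith

lemma g_rec (d : ℕ) : ∀ r, g (d + 1) (r + 1) = g (d + 1) r + g d (r + 1)
  | 0 => by simp [g, S_zero]
  | r + 1 => by
    have := g_rec d r
    simp only [g] at this ⊢
    rw [S_succ]
    linarith

lemma phi_eq (d : ℕ) : ∀ r, (phi d r : ℝ) = ∑ i ∈ range r, S d i + g d r
  | 0 => by simp [phi, g]
  | 1 => by simp [phi, g, S_zero]; norm_num
  | r + 2 => by
    have := phi_eq d r
    simp only [phi, g, sum_range_succ]
    push_cast
    rw [this]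
    simp only [S]
    ring

noncomputable def G (d r : ℕ) (t : ℝ) : ℝ :=
  g d r * t ^ r + (-1) ^ r * ∑ i ∈ range r, S d i * (-t) ^ i

lemma G_succ (d r : ℕ) (t : ℝ) : G d (r + 1) t = g d (r + 1) * t ^ r * (t - 1) - G d r t := by
  simp only [G, sum_range_succ, g]
  have : (-1 : ℝ) ^ r * (-t) ^ r = t ^ r := by rw [← mul_pow]; simp
  linear_combination (-S d r) * this

lemma G_step (d r : ℕ) (t : ℝ) (ht : 1 < t) : G (d + 2) r t ≤ G (d + 2) (r + 2) t := by
  rw [G_succ, G_succ]
  have h1 := g_rec (d + 1) (r + 1)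
  have h2 := g_nonneg d (r + 2)
  have h3 := g_nonneg (d + 1) (r + 1)
  have h4 : 0 < t ^ r := by positivity
  have h5 : 0 ≤ t ^ r * (t - 1) * (g (d + 2) (r + 2) * t - g (d + 2) (r + 1)) := by
    apply mul_nonneg (by nlinarith)
    nlinarith
  have e : t ^ (r + 1) = t ^ r * t := pow_succ _ _
  rw [e]
  nlinarith

lemma g_pos (d : ℕ) : ∀ r, 1 ≤ g (d + 2) (r + 1)
  | 0 => by simp [g, S_zero]
  | r + 1 => by
    have := g_pos d r
    have h1 := g_rec (d + 1) (r + 1)
    have h2 := g_nonneg d (r + 2)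
    linarith

lemma G_pos (d : ℕ) (t : ℝ) (ht : 1 < t) : ∀ r, 0 < G (d + 2) (r + 1) t
  | 0 => by simp [G, g, S_zero]; linarith
  | 1 => by
    rw [G_succ]
    have h1 := g_pos d 1
    have h2 : G (d + 2) 1 t = t - 1 := by simp [G, g, S_zero]; ring
    rw [h2]
    have : 0 < (t - 1) * (g (d + 2) (1 + 1) * t - 1) := by
      apply mul_pos (by linarith)
      nlinarith
    nlinarith
  | r + 2 => lt_of_lt_of_le (G_pos d t ht r) (G_step d (r + 1) t ht)

lemma real_case (d r : ℕ) (h : ℝ) (hp : 0 < h) (hg : g (d + 2) r ≤ h) (x : ℝ) (hx : 1 < |x|) :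
    ∑ i ∈ range r, S (d + 2) i * x ^ i + h * x ^ r ≠ 0 := by
  rcases lt_abs.1 hx with h1 | h1
  · have : 0 ≤ ∑ i ∈ range r, S (d + 2) i * x ^ i :=
      sum_nonneg fun i _ => mul_nonneg (S_nonneg _ _) (by positivity)
    have : 0 < h * x ^ r := by positivity
    linarith
  · intro h0
    obtain ⟨t, rfl⟩ : ∃ t, x = -t := ⟨-x, by ring⟩
    rw [neg_neg] at h1
    have e : (-1 : ℝ) ^ r * (-t) ^ r = t ^ r := by rw [← mul_pow]; simp
    have key : G (d + 2) r t + (h - g (d + 2) r) * t ^ r = 0 := by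
      simp only [G]
      linear_combination (-1) ^ r * h0 - h * e
    have h4 : 0 < t ^ r := by positivity
    cases r with
    | zero => simp [G, g] at key; linarith
    | succ r =>
      have := G_pos d t h1 r
      nlinarith

lemma im_pow (z : ℂ) (hz : ‖z‖ ≤ 1) : ∀ k : ℕ, |(z ^ k).im| ≤ k * |z.im|
  | 0 => by simp
  | k + 1 => by
    have ih := im_pow z hz k
    have h1 : |(z ^ k).re| ≤ 1 :=
      (Complex.abs_re_le_norm _).trans (by rw [norm_pow]; exact pow_le_one₀ (norm_nonneg _) hz)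
    have h2 : |z.re| ≤ 1 := (Complex.abs_re_le_norm _).trans hz
    rw [pow_succ, Complex.mul_im]
    have h3 := abs_add_le ((z ^ k).re * z.im) ((z ^ k).im * z.re)
    rw [abs_mul, abs_mul] at h3
    have h4 := abs_nonneg z.im
    have h5 := abs_nonneg (z ^ k).im
    push_cast
    nlinarith

lemma ident (d : ℕ) (q : ℂ) : ∀ r : ℕ, (1 - q) ^ 2 * ∑ i ∈ range r, (S (d + 2) i : ℂ) * q ^ i =
    ∑ i ∈ range r, (S d i : ℂ) * (q ^ i - ((r : ℂ) - i + 1) * q ^ r + ((r : ℂ) - i) * q ^ (r + 1))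
  | 0 => by simp
  | r + 1 => by
    have ih := ident d q r
    have h2 : ∑ i ∈ range (r + 1), (S d i : ℂ) * ((r : ℂ) + 1 - i) = S (d + 2) r := by
      have := S_sum2 d r
      exact_mod_cast this
    have h3 : ∑ i ∈ range (r + 1), (S d i : ℂ) *
        (q ^ i - (((r + 1 : ℕ) : ℂ) - i + 1) * q ^ (r + 1) + (((r + 1 : ℕ) : ℂ) - i) * q ^ (r + 1 + 1)) =
        ∑ i ∈ range (r + 1), (S d i : ℂ) *
          (q ^ i - ((r : ℂ) - i + 1) * q ^ r + ((r : ℂ) - i) * q ^ (r + 1)) +
        (∑ i ∈ range (r + 1), (S d i : ℂ) * ((r : ℂ) + 1 - i)) * (q ^ r * (1 - q) ^ 2) := by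
      rw [sum_mul, ← sum_add_distrib]
      refine sum_congr rfl fun i _ => ?_
      push_cast
      ring
    rw [h3, h2, sum_range_succ, sum_range_succ, mul_add, ih]
    ring

lemma nonreal_case (d r : ℕ) (h : ℝ) (hp : 0 < h) (q : ℂ) (hq : 1 < ‖q‖) (him : q.im ≠ 0) :
    ∑ i ∈ range r, (S (d + 2) i : ℂ) * q ^ i + h * q ^ r ≠ 0 := by
  intro h0
  have hq0 : q ≠ 0 := by
    rintro rfl
    simp at him
  set z := q⁻¹ with hz
  have hzq : z * q = 1 := inv_mul_cancel₀ hq0
  have hzn : ‖z‖ ≤ 1 := by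
    rw [hz, norm_inv]
    exact inv_le_one_of_one_le₀ hq.le
  have key : ∑ i ∈ range r, (S d i : ℂ) *
      (z ^ (r - i + 1) - ((r - i + 1 : ℕ) : ℂ) * z + ((r - i : ℕ) : ℂ)) + h * (z - 2 + q) = 0 := by
    have e1 := ident d q r
    have e2 : ∑ i ∈ range r, (S d i : ℂ) *
        (z ^ (r - i + 1) - ((r - i + 1 : ℕ) : ℂ) * z + ((r - i : ℕ) : ℂ)) =
        (∑ i ∈ range r, (S d i : ℂ) *
          (q ^ i - ((r : ℂ) - i + 1) * q ^ r + ((r : ℂ) - i) * q ^ (r + 1))) * z ^ (r + 1) := by
      rw [sum_mul]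
      refine sum_congr rfl fun i hi => ?_
      obtain ⟨n, rfl⟩ : ∃ n, r = i + n := ⟨r - i, by have := mem_range.1 hi; omega⟩
      have a1 : ∀ k : ℕ, q ^ k * z ^ k = 1 := fun k => by rw [← mul_pow, mul_comm, hzq, one_pow]
      have a2 := a1 i
      have a3 := a1 (i + n)
      have a4 := a1 (i + n + 1)
      rw [Nat.add_sub_cancel_left]
      push_cast
      have b2 : q ^ i * z ^ (i + n + 1) = z ^ (n + 1) := by
        linear_combination z ^ (n + 1) * a2
      have b3 : q ^ (i + n) * z ^ (i + n + 1) = z := by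
        linear_combination z * a3
      linear_combination (-(S d i : ℂ)) * (b2 - ((n : ℂ) + 1) * b3 + n * a4)
    have a3 : q ^ r * z ^ r = 1 := by rw [← mul_pow, mul_comm, hzq, one_pow]
    rw [e2, ← e1]
    have e3 : ∑ i ∈ range r, (S (d + 2) i : ℂ) * q ^ i = -(h * q ^ r) := by
      linear_combination h0
    rw [e3]
    linear_combination (-(h : ℂ) * (1 - q) ^ 2 * z) * a3 + (h : ℂ) * (2 - q) * hzq
  have him2 := congrArg Complex.im key
  rw [Complex.add_im, Complex.im_sum, Complex.zero_im] at him2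
  have hN : 1 < Complex.normSq q := by
    rw [Complex.normSq_eq_norm_sq]
    nlinarith
  have hzi : z.im = -q.im / Complex.normSq q := by rw [hz, Complex.inv_im]
  have hqi : q.im = -(z.im * Complex.normSq q) := by
    rw [hzi]
    field_simp
  have hz0 : z.im ≠ 0 := fun hh => him (by rw [hqi, hh]; simp)
  have t1 : z.im * ∑ i ∈ range r, ((S d i : ℂ) *
      (z ^ (r - i + 1) - ((r - i + 1 : ℕ) : ℂ) * z + ((r - i : ℕ) : ℂ))).im ≤ 0 := by
    rw [mul_sum]
    refine sum_nonpos fun i _ => ?_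
    generalize r - i = n
    have b1 := im_pow z hzn (n + 1)
    have b2 : ((S d i : ℂ) * (z ^ (n + 1) - ((n + 1 : ℕ) : ℂ) * z + ((n : ℕ) : ℂ))).im =
        S d i * ((z ^ (n + 1)).im - ((n + 1 : ℕ) : ℝ) * z.im) := by
      rw [Complex.im_ofReal_mul, Complex.add_im, Complex.sub_im, Complex.natCast_im, add_zero,
        ← Complex.ofReal_natCast, Complex.im_ofReal_mul]
    rw [b2]
    have b3 : z.im * (z ^ (n + 1)).im ≤ ((n + 1 : ℕ) : ℝ) * (z.im * z.im) := by
      have c1 := le_abs_self (z.im * (z ^ (n + 1)).im)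
      rw [abs_mul] at c1
      have c2 := mul_le_mul_of_nonneg_left b1 (abs_nonneg z.im)
      have c3 := abs_mul_abs_self z.im
      nlinarith
    have b4 := S_nonneg d i
    nlinarith
  have t2 : ((h : ℂ) * (z - 2 + q)).im = h * (z.im + q.im) := by simp
  rw [t2, hqi] at him2
  have t3 : 0 < z.im * z.im := mul_self_pos.2 hz0
  have t4 : 0 < h * (z.im * z.im) * (Complex.normSq q - 1) := by
    apply mul_pos (mul_pos hp t3)
    linarith
  have t5 := congrArg (z.im * ·) him2
  simp only [mul_zero] at t5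
  rw [mul_add] at t5
  nlinarith

lemma main2 (d r : ℕ) (h : ℝ) (hp : 0 < h) (hg : g (d + 2) r ≤ h) (q : ℂ)
    (h0 : ∑ i ∈ range r, (S (d + 2) i : ℂ) * q ^ i + h * q ^ r = 0) : ‖q‖ ≤ 1 := by
  by_contra hq
  rw [not_le] at hq
  by_cases him : q.im = 0
  · obtain ⟨x, rfl⟩ : ∃ x : ℝ, q = x := ⟨q.re, Complex.ext rfl (by simp [him])⟩
    refine real_case d r h hp hg x (by simpa using hq) ?_
    exact_mod_cast h0
  · exact nonreal_case d r h hp q hq him h0

lemma geom (n : ℕ) (q : ℂ) (h0 : ∑ i ∈ range (n + 1), q ^ i = 0) : ‖q‖ ≤ 1 := by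
  have h1 := geom_sum_mul q (n + 1)
  rw [h0, zero_mul] at h1
  have h2 : q ^ (n + 1) = 1 := by linear_combination -h1
  have h3 := congrArg norm h2
  rw [norm_pow, norm_one] at h3
  exact ((pow_eq_one_iff_of_nonneg (norm_nonneg q) (Nat.succ_ne_zero n)).1 h3).le

lemma S_one (i : ℕ) : S 1 i = 1 := by simp [S]

/-- the case with vanishing top coefficient -/
lemma main0 (d r : ℕ) (q : ℂ) (h0 : ∑ i ∈ range (r + 1), (S d i : ℂ) * q ^ i = 0) :
    ‖q‖ ≤ 1 := by
  match d, h0 with
  | 0, h0 =>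
    rw [sum_range_succ'] at h0
    simp [S] at h0
  | 1, h0 =>
    simp only [S_one, Complex.ofReal_one, one_mul] at h0
    exact geom r q h0
  | d + 2, h0 =>
    rw [sum_range_succ] at h0
    refine main2 d r _ (S_pos _ _) ?_ q h0
    have := g_nonneg (d + 1) (r + 1)
    simp only [g] at this
    linarith

lemma unif (d : ℕ) (q : ℂ) : ∀ r : ℕ,
    ∑ k ∈ range (r + 1), (((d + r).choose k : ℕ) : ℂ) * q ^ k * (1 - q) ^ (r - k) =
      ∑ i ∈ range (r + 1), (S d i : ℂ) * q ^ i
  | 0 => by simp [S_zero]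
  | r + 1 => by
    have ih := unif d q r
    have hS : (S d (r + 1) : ℂ) = ((d + r).choose (r + 1) : ℕ) := by
      simp only [S, Nat.multichoose_eq, Complex.ofReal_natCast]
      rfl
    have h1 : ∑ k ∈ range (r + 1 + 1), (((d + r).choose k : ℕ) : ℂ) * q ^ k * (1 - q) ^ (r + 1 - k) =
        (1 - q) * ∑ k ∈ range (r + 1), (((d + r).choose k : ℕ) : ℂ) * q ^ k * (1 - q) ^ (r - k) +
        (S d (r + 1) : ℂ) * q ^ (r + 1) := by
      rw [sum_range_succ, mul_sum, hS]
      congr 1
      · refine sum_congr rfl fun k hk => ?_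
        have : r + 1 - k = r - k + 1 := by have := mem_range.1 hk; omega
        rw [this]
        ring
      · simp
    rw [sum_range_succ (fun i => (S d i : ℂ) * q ^ i), ← ih, sum_range_succ']
    rw [sum_range_succ'] at h1
    have h2 : ∑ k ∈ range (r + 1), (((d + (r + 1)).choose (k + 1) : ℕ) : ℂ) * q ^ (k + 1) *
        (1 - q) ^ (r + 1 - (k + 1)) =
        q * ∑ k ∈ range (r + 1), (((d + r).choose k : ℕ) : ℂ) * q ^ k * (1 - q) ^ (r - k) +
        ∑ k ∈ range (r + 1), (((d + r).choose (k + 1) : ℕ) : ℂ) * q ^ (k + 1) *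
          (1 - q) ^ (r + 1 - (k + 1)) := by
      rw [mul_sum, ← sum_add_distrib]
      refine sum_congr rfl fun k _ => ?_
      rw [← add_assoc, Nat.choose_succ_succ, Nat.add_sub_add_right]
      push_cast
      ring
    rw [h2]
    simp only [Nat.choose_zero_right] at h1 ⊢
    linear_combination h1

lemma choose_eq (d r : ℕ) : (((d + r).choose r : ℕ) : ℝ) = S (d + 1) r := by
  simp only [S, Nat.multichoose_eq]
  congr 2
  omega

theorem core {α : Type} [DecidableEq α] (E : Finset α) (d r : ℕ) (B : Finset (Finset α))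
    (hE : E.card = d + r) (h : Fam E r B) (hB : B.Nonempty) (q : ℂ)
    (h0 : ∑ k ∈ range r, (((d + r).choose k : ℕ) : ℂ) * q ^ k * (1 - q) ^ (d + r - k) +
      (B.card : ℂ) * q ^ r * (1 - q) ^ d = 0) : ‖q‖ ≤ 1 := by
  by_cases hq : q = 1
  · simp [hq]
  have hq' : (1 - q) ^ d ≠ 0 := pow_ne_zero _ (sub_ne_zero.2 (Ne.symm hq))
  have hu := unif d q r
  rw [sum_range_succ, sum_range_succ] at hu
  have hs : ∑ i ∈ range r, S d i + S d r = S (d + 1) r := by rw [← S_sum, sum_range_succ]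
  set c : ℝ := (B.card : ℝ) - ∑ i ∈ range r, S d i with hc
  have h1 : ∑ i ∈ range r, (S d i : ℂ) * q ^ i + c * q ^ r = 0 := by
    apply mul_left_cancel₀ hq'
    have e1 : ∑ k ∈ range r, (((d + r).choose k : ℕ) : ℂ) * q ^ k * (1 - q) ^ (d + r - k) =
        (1 - q) ^ d * ∑ k ∈ range r, (((d + r).choose k : ℕ) : ℂ) * q ^ k * (1 - q) ^ (r - k) := by
      rw [mul_sum]
      refine sum_congr rfl fun k hk => ?_
      have : d + r - k = d + (r - k) := by have := mem_range.1 hk; omega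
      rw [this]
      ring
    have e2 : (((d + r).choose r : ℕ) : ℂ) = ((∑ i ∈ range r, S d i : ℝ) : ℂ) + S d r := by
      rw [← Complex.ofReal_add, hs, ← choose_eq]
      simp
    have e3 : (c : ℂ) = B.card - ((∑ i ∈ range r, S d i : ℝ) : ℂ) := by
      rw [hc, Complex.ofReal_sub, Complex.ofReal_natCast]
    rw [e1] at h0
    rw [e2, Nat.sub_self, pow_zero] at hu
    rw [e3]
    linear_combination h0 - (1 - q) ^ d * hu
  cases r with
  | zero =>
    have : (0 : ℝ) < B.card := by exact_mod_cast hB.card_pos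
    simp only [range_zero, sum_empty, sub_zero] at hc
    simp only [range_zero, sum_empty, pow_zero, mul_one, zero_add, Complex.ofReal_eq_zero] at h1
    linarith
  | succ r =>
    by_cases hn : NC E B
    · have h2 : (phi d (r + 1) : ℝ) ≤ B.card := by
        exact_mod_cast count_ge _ E d (r + 1) B rfl hE h hn
      rw [phi_eq] at h2
      have h3 : g d (r + 1) ≤ c := by linarith
      have h4 : (B.card : ℝ) ≤ S (d + 1) (r + 1) := by
        rw [← choose_eq, ← hE, ← card_powersetCard]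
        exact_mod_cast card_le_card fun X hX => mem_powersetCard.2 (h.sub X hX)
      match d, hE, h1, h3, h4, hs, hc with
      | 0, hE, _, _, _, _, _ =>
        obtain ⟨e, he⟩ : E.Nonempty := card_pos.1 (by omega)
        obtain ⟨X, hX, heX⟩ := hn e he
        obtain ⟨a, b⟩ := h.sub X hX
        exact absurd (eq_of_subset_of_card_le a (by omega) ▸ he) heX
      | 1, _, h1, h3, h4, hs, hc =>
        have h5 := g_nonneg 0 (r + 1)
        simp only [S_one, sum_const, card_range, nsmul_eq_mul, mul_one, Complex.ofReal_one,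
          one_mul] at h1 hs hc
        have h6 : r + 1 ≤ B.card := by
          have : ((r + 1 : ℕ) : ℝ) ≤ B.card := by linarith
          exact_mod_cast this
        have h7 : B.card ≤ r + 1 + 1 := by
          have : (B.card : ℝ) ≤ ((r + 1 + 1 : ℕ) : ℝ) := by push_cast at hs ⊢; linarith
          exact_mod_cast this
        rcases (by omega : B.card = r + 1 ∨ B.card = r + 1 + 1) with h8 | h8
        · rw [h8, sub_self] at hc
          rw [hc, Complex.ofReal_zero, zero_mul, add_zero] at h1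
          exact geom r q h1
        · have : c = 1 := by rw [hc, h8]; push_cast; ring
          rw [this, Complex.ofReal_one, one_mul, ← sum_range_succ] at h1
          exact geom (r + 1) q h1
      | d + 2, _, h1, h3, _, _, _ =>
        have := g_pos d r
        exact main2 d (r + 1) c (by linarith) h3 q h1
    · simp only [NC, not_forall, not_exists, not_and, not_not] at hn
      obtain ⟨e, he, hb⟩ := hn
      have h2 := count_coloop E r B h hB e he hb
      have h3 : c = 0 := by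
        rw [hc, S_sum, h2, hE, ← choose_eq]
        simp
      rw [h3, Complex.ofReal_zero, zero_mul, add_zero] at h1
      exact main0 d r q h1

end Pool.Agent.H.MP_1ae31d_co
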